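import Pool.Agent.Lib.MP_75b31c_lc.N40.H40.All

set_option autoImplicit false

/-!
# The shift of a group containing `F_2` is not reducible to Turing equivalence (helper55)
-/

namespace Pool.Agent.Lib.MP_75b31c_lc.H55

open MeasureTheory
open Pool.Agent.Lib.MP_75b31c_lc.N40
open Pool.Agent.Lib.MP_75b31c_lc.H40 (chi coin coinPi shift pre)

/-- The free group of rank two. -/
abbrev F2 : Type := FreeGroup (Fin 2)

/-! ### A coding of `YY` by points of `2 ^ ℤ` with a marker at `0` -/

/-- A measurable injection of `YY` to the Cantor space. -/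
theorem exists_code : ∃ φ : YY → ℕ → Bool, Measurable φ ∧ Function.Injective φ :=
  MeasurableSpace.measurable_injection_nat_bool_of_countablySeparated YY

/-- The marked code: `false` on the negative integers, `true` at `0`, then the code. -/
noncomputable def code (y : YY) (m : ℤ) : Bool :=
  if m < 0 then false else if m = 0 then true else exists_code.choose y (m.toNat - 1)

theorem measurable_code (m : ℤ) : Measurable fun y => code y m := by
  unfold code
  split_ifs
  · exact measurable_const
  · exact measurable_const
  · exact (measurable_pi_apply _).comp exists_code.choose_spec.1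

theorem code_neg (y : YY) {m : ℤ} (hm : m < 0) : code y m = false := by
  simp [code, hm]

theorem code_zero (y : YY) : code y 0 = true := by
  simp [code]

theorem code_inj {y y' : YY} (h : ∀ m, code y m = code y' m) : y = y' := by
  apply exists_code.choose_spec.2
  funext n
  have := h ((n : ℤ) + 1)
  simp only [code] at this
  rw [if_neg (by omega), if_neg (by omega), if_neg (by omega), if_neg (by omega)] at this
  have h2 : ((n : ℤ) + 1).toNat - 1 = n := by omega
  rwa [h2] at this

/-- Translates of codes are different. -/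
theorem code_shift {y y' : YY} {k k' : ℤ} (h : ∀ j : ℤ, code y (k + j) = code y' (k' + j)) :
    k = k' ∧ y = y' := by
  have h1 : k = k' := by
    rcases lt_trichotomy k k' with hk | hk | hk
    · have := h (-k')
      rw [show k' + -k' = 0 by ring, code_zero, code_neg y (by omega)] at this
      exact absurd this (by decide)
    · exact hk
    · have := h (-k)
      rw [show k + -k = 0 by ring, code_zero, code_neg y' (by omega)] at this
      exact absurd this (by decide)
  subst h1
  refine ⟨rfl, code_inj fun m => ?_⟩
  have := h (m - k)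
  rwa [show k + (m - k) = m by ring] at this

/-! ### The action of `F_2` on `YY × ℤ` -/

/-- The action on `YY`. -/
def actY (g : GG) : Equiv.Perm YY where
  toFun y := (y.1, act y.1 g y.2.1, y.2.2)
  invFun y := (y.1, (act y.1 g).symm y.2.1, y.2.2)
  left_inv y := by simp
  right_inv y := by simp

theorem actY_apply (g : GG) (y : YY) : actY g y = (y.1, act y.1 g y.2.1, y.2.2) := rfl

theorem actY_mul (g g' : GG) (y : YY) : actY (g * g') y = actY g (actY g' y) := by
  simp [actY_apply]

theorem actY_one (y : YY) : actY 1 y = y := by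
  simp [actY_apply]

theorem actY_inv (g : GG) (y : YY) : actY g⁻¹ y = (actY g).symm y := by
  rw [Equiv.eq_symm_apply, ← actY_mul]
  simp [actY_one]

theorem ff_iff (y y' : YY) : FF y y' ↔ ∃ g : GG, actY g y = y' := by
  constructor
  · rintro ⟨h1, h2, g, h3⟩
    exact ⟨g, Prod.ext h1 (Prod.ext h3 h2)⟩
  · rintro ⟨g, h⟩
    subst h
    exact ⟨rfl, rfl, g, rfl⟩

theorem measurable_actY (g : GG) : Measurable (actY g) := by
  have h : Measurable fun y : YY => ((y.1, y.2.1) : (ℕ → Bool) × XX) :=
    measurable_fst.prodMk (measurable_fst.comp measurable_snd)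
  have h2 : Measurable fun y : YY => act y.1 g y.2.1 := by
    have e : (fun y : YY => act y.1 g y.2.1) = (fun q : (ℕ → Bool) × XX => act q.1 g q.2) ∘
        (fun y : YY => ((y.1, y.2.1) : (ℕ → Bool) × XX)) := by
      funext y
      rw [Function.comp_apply]
    rw [e]
    exact (N40.H40.measurable_act g).comp h
  exact measurable_fst.prodMk (h2.prodMk (measurable_snd.comp measurable_snd))

instance : Countable Gam := inferInstance

theorem exists_enum : ∃ e : ℕ → Option Gam, Function.Surjective e :=
  exists_surjective_nat (Option Gam)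

/-- The generator at level `k`. -/
noncomputable def gen (k : ℤ) : GG := FreeGroup.of (exists_enum.choose k.toNat)

theorem gen_surj (o : Option Gam) : ∃ k : ℤ, gen k = FreeGroup.of o := by
  obtain ⟨n, hn⟩ := exists_enum.choose_spec o
  exact ⟨n, by simp [gen, hn]⟩

/-- The space of the action. -/
abbrev WW : Type := YY × ℤ

/-- The generator `a`. -/
noncomputable def pa : Equiv.Perm WW where
  toFun w := (actY (gen w.2) w.1, w.2)
  invFun w := ((actY (gen w.2)).symm w.1, w.2)
  left_inv w := by simp
  right_inv w := by simp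

/-- The generator `b`. -/
def pb : Equiv.Perm WW where
  toFun w := (w.1, w.2 + 1)
  invFun w := (w.1, w.2 - 1)
  left_inv w := by simp
  right_inv w := by simp

/-- The action of `F_2`. -/
noncomputable def rho : F2 →* Equiv.Perm WW := FreeGroup.lift ![pa, pb]

/-- The generators of `F_2`. -/
def ga : F2 := FreeGroup.of 0

/-- The generators of `F_2`. -/
def gb : F2 := FreeGroup.of 1

theorem rho_a (w : WW) : rho ga w = (actY (gen w.2) w.1, w.2) := by
  unfold rho ga
  rw [FreeGroup.lift_apply_of]
  rfl

theorem rho_b (w : WW) : rho gb w = (w.1, w.2 + 1) := by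
  unfold rho gb
  rw [FreeGroup.lift_apply_of]
  rfl

theorem rho_a_inv (w : WW) : rho ga⁻¹ w = ((actY (gen w.2)).symm w.1, w.2) := by
  rw [map_inv, Equiv.Perm.inv_eq_iff_eq, rho_a]
  simp

theorem rho_b_inv (w : WW) : rho gb⁻¹ w = (w.1, w.2 - 1) := by
  rw [map_inv, Equiv.Perm.inv_eq_iff_eq, rho_b]
  simp

theorem rho_b_zpow (j : ℤ) (w : WW) : rho (gb ^ j) w = (w.1, w.2 + j) := by
  induction j using Int.induction_on generalizing w with
  | zero => simp
  | succ i ih =>
    rw [zpow_add_one, map_mul, Equiv.Perm.mul_apply, rho_b, ih]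
    simp only [Prod.mk.injEq, true_and]
    ring
  | pred i ih =>
    rw [zpow_sub_one, map_mul, Equiv.Perm.mul_apply, rho_b_inv, ih]
    simp only [Prod.mk.injEq, true_and]
    ring

theorem measurable_rho (g : F2) : Measurable (rho g) := by
  have hA : ∀ F : ℤ → YY → YY, (∀ k, Measurable (F k)) →
      Measurable fun w : WW => ((F w.2 w.1, w.2) : WW) := fun F hF =>
    measurable_from_prod_countable_left fun k => (hF k).prodMk measurable_const
  have hB : ∀ F : ℤ → ℤ, Measurable fun w : WW => ((w.1, F w.2) : WW) := fun F =>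
    measurable_from_prod_countable_left fun k =>
      (measurable_id.prodMk measurable_const : Measurable fun y : YY => ((y, F k) : WW))
  induction g using FreeGroup.induction_on with
  | C1 =>
    rw [map_one]
    exact measurable_id
  | of i =>
    fin_cases i
    · have : (rho (FreeGroup.of 0) : WW → WW) = fun w => (actY (gen w.2) w.1, w.2) :=
        funext rho_a
      change Measurable (rho (FreeGroup.of 0) : WW → WW)
      rw [this]
      exact hA (fun k => actY (gen k)) fun k => measurable_actY _
    · have : (rho (FreeGroup.of 1) : WW → WW) = fun w => (w.1, w.2 + 1) := funext rho_b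
      change Measurable (rho (FreeGroup.of 1) : WW → WW)
      rw [this]
      exact hB fun k => k + 1
  | inv_of i h =>
    fin_cases i
    · have : (rho (FreeGroup.of 0)⁻¹ : WW → WW) = fun w => (actY (gen w.2)⁻¹ w.1, w.2) := by
        funext w
        rw [actY_inv]
        exact rho_a_inv w
      change Measurable (rho (FreeGroup.of 0)⁻¹ : WW → WW)
      rw [this]
      exact hA (fun k => actY (gen k)⁻¹) fun k => measurable_actY _
    · have : (rho (FreeGroup.of 1)⁻¹ : WW → WW) = fun w => (w.1, w.2 - 1) := funext rho_b_inv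
      change Measurable (rho (FreeGroup.of 1)⁻¹ : WW → WW)
      rw [this]
      exact hB fun k => k - 1
  | mul x y hx hy =>
    have e : (rho (x * y) : WW → WW) = rho x ∘ rho y := by
      funext w
      simp
    rw [e]
    exact hx.comp hy

/-! ### The reduction -/

/-- The equivariant map. -/
noncomputable def theta (w : WW) (g : F2) : Bool := code (rho g⁻¹ w).1 (rho g⁻¹ w).2

theorem theta_shift (γ : F2) (w : WW) : shift γ (theta w) = theta (rho γ w) := by
  funext δ
  have : rho δ⁻¹ (rho γ w) = rho (γ⁻¹ * δ)⁻¹ w := by
    rw [mul_inv_rev, inv_inv, map_mul, Equiv.Perm.mul_apply]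
  simp only [shift, theta, this]

theorem theta_inj {w w' : WW} (h : theta w = theta w') : w = w' := by
  have h1 : ∀ j : ℤ, code w.1 (w.2 + j) = code w'.1 (w'.2 + j) := by
    intro j
    have := congrFun h (gb ^ (-j))
    simp only [theta] at this
    rwa [← zpow_neg, neg_neg, rho_b_zpow, rho_b_zpow] at this
  obtain ⟨h2, h3⟩ := code_shift h1
  exact Prod.ext h3 h2

theorem measurable_theta : Measurable theta := by
  refine measurable_pi_lambda _ fun g => ?_
  have h1 : Measurable fun w : WW => code w.1 w.2 :=
    measurable_from_prod_countable_left fun k => measurable_code k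
  exact h1.comp (measurable_rho g⁻¹)

theorem rho_class (γ : F2) (w : WW) : FF w.1 (rho γ w).1 := by
  have hE := N40.H40.ff_equivalence
  induction γ using FreeGroup.induction_on generalizing w with
  | C1 =>
    rw [map_one]
    exact hE.refl _
  | of i =>
    fin_cases i
    · change FF w.1 (rho ga w).1
      rw [rho_a, ff_iff]
      exact ⟨_, rfl⟩
    · change FF w.1 (rho gb w).1
      rw [rho_b]
      exact hE.refl _
  | inv_of i h =>
    fin_cases i
    · change FF w.1 (rho ga⁻¹ w).1
      rw [rho_a_inv, ff_iff]
      exact ⟨_, actY_inv _ _⟩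
    · change FF w.1 (rho gb⁻¹ w).1
      rw [rho_b_inv]
      exact hE.refl _
  | mul x y hx hy =>
    rw [map_mul, Equiv.Perm.mul_apply]
    exact hE.trans (hy w) (hx _)

theorem exists_word (g : GG) : ∃ γ : F2, ∀ y : YY, rho γ (y, 0) = (actY g y, 0) := by
  induction g using FreeGroup.induction_on with
  | C1 => exact ⟨1, fun y => by simp [actY_one]⟩
  | of o =>
    obtain ⟨k, hk⟩ := gen_surj o
    refine ⟨gb ^ (-k) * ga * gb ^ k, fun y => ?_⟩
    rw [map_mul, map_mul, Equiv.Perm.mul_apply, Equiv.Perm.mul_apply, rho_b_zpow, rho_a,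
      rho_b_zpow]
    simp only [zero_add, hk, Prod.mk.injEq, true_and]
    ring
  | inv_of o h =>
    obtain ⟨γ, hγ⟩ := h
    refine ⟨γ⁻¹, fun y => ?_⟩
    rw [map_inv, Equiv.Perm.inv_eq_iff_eq, hγ, actY_inv, Equiv.apply_symm_apply]
  | mul x y hx hy =>
    obtain ⟨γ, hγ⟩ := hx
    obtain ⟨γ', hγ'⟩ := hy
    refine ⟨γ * γ', fun z => ?_⟩
    rw [map_mul, Equiv.Perm.mul_apply, hγ', hγ, actY_mul]

/-- The reduction of `FF` to the shift of `F_2`. -/
theorem ff_theta (y y' : YY) :
    FF y y' ↔ ∃ γ : F2, shift γ (theta (y, 0)) = theta (y', 0) := by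
  constructor
  · intro h
    obtain ⟨g, hg⟩ := (ff_iff y y').1 h
    obtain ⟨γ, hγ⟩ := exists_word g
    exact ⟨γ, by rw [theta_shift, hγ, hg]⟩
  · rintro ⟨γ, h⟩
    rw [theta_shift] at h
    have h1 := theta_inj h
    have h2 := rho_class γ (y, 0)
    rwa [h1] at h2

/-! ### Groups containing `F_2` -/

section Ext

variable {Γ : Type} [Group Γ] (ι : F2 →* Γ)

open Classical in
/-- Extension by `false`. -/
noncomputable def extend (x : F2 → Bool) (g : Γ) : Bool :=
  if h : ∃ γ, ι γ = g then x h.choose else false

theorem extend_image (hι : Function.Injective ι) (x : F2 → Bool) (γ : F2) :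
    extend ι x (ι γ) = x γ := by
  have h : ∃ γ', ι γ' = ι γ := ⟨γ, rfl⟩
  unfold extend
  rw [dif_pos h, hι h.choose_spec]

theorem extend_not (x : F2 → Bool) {g : Γ} (hg : ∀ γ, ι γ ≠ g) : extend ι x g = false := by
  unfold extend
  rw [dif_neg (by simpa using hg)]

theorem measurable_extend : Measurable (extend ι) := by
  refine measurable_pi_lambda _ fun g => ?_
  by_cases h : ∃ γ, ι γ = g
  · simp only [extend, dif_pos h]
    exact measurable_pi_apply _
  · simp only [extend, dif_neg h]
    exact measurable_const

theorem extend_orbit (hι : Function.Injective ι) (x y : F2 → Bool) :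
    (∃ γ : F2, shift γ x = y) ↔ ∃ g : Γ, shift g (extend ι x) = extend ι y := by
  constructor
  · rintro ⟨γ, rfl⟩
    refine ⟨ι γ, ?_⟩
    funext g
    by_cases h : ∃ δ, ι δ = g
    · obtain ⟨δ, rfl⟩ := h
      have : (ι γ)⁻¹ * ι δ = ι (γ⁻¹ * δ) := by rw [map_mul, map_inv]
      rw [shift, this, extend_image ι hι, extend_image ι hι, shift]
    · push Not at h
      rw [shift, extend_not ι (shift γ x) h, extend_not ι x]
      intro δ hδ
      apply h (γ * δ)
      rw [map_mul, hδ, mul_inv_cancel_left]
  · rintro ⟨g, hg⟩
    by_cases h : ∃ γ, ι γ = g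
    · obtain ⟨γ, rfl⟩ := h
      refine ⟨γ, ?_⟩
      funext δ
      have h1 := congrFun hg (ι δ)
      rw [extend_image ι hι, shift] at h1
      have : (ι γ)⁻¹ * ι δ = ι (γ⁻¹ * δ) := by rw [map_mul, map_inv]
      rw [this, extend_image ι hι] at h1
      exact h1
    · push Not at h
      have hy : y = fun _ => false := by
        funext δ
        have h1 := congrFun hg (ι δ)
        rw [extend_image ι hι, shift, extend_not ι x] at h1
        · exact h1.symm
        · intro γ hγ
          apply h (δ * γ⁻¹)
          rw [map_mul, map_inv, hγ]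
          group
      have hx : x = fun _ => false := by
        funext δ
        have h1 := congrFun hg (g * ι δ)
        rw [shift, inv_mul_cancel_left, extend_image ι hι, extend_not ι y] at h1
        · exact h1
        · intro γ hγ
          apply h (γ * δ⁻¹)
          rw [map_mul, map_inv, hγ]
          group
      exact ⟨1, by rw [hx, hy]; rfl⟩

end Ext

/-- `E(Γ, 2)` is not reducible to Turing equivalence if `F_2` embeds in `Γ`. -/
theorem not_reducible (Γ : Type) [Group Γ] (ι : F2 →* Γ) (hι : Function.Injective ι)
    (f : (Γ → Bool) → ℕ → Bool) (hf : Measurable f)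
    (hred : ∀ x y, (∃ g : Γ, shift g x = y) ↔ TEq (f x) (f y)) : False := by
  refine N40.H40.main ⟨fun y => f (extend ι (theta (y, 0))), ?_, fun y y' => ?_⟩
  · exact hf.comp ((measurable_extend ι).comp (measurable_theta.comp
      (measurable_id.prodMk measurable_const)))
  · rw [ff_theta, extend_orbit ι hι, hred]

/-! ### `E(Γ, 2)` is a countable Borel equivalence relation -/

theorem orbit_equivalence (Γ : Type) [Group Γ] :
    Equivalence fun x y : Γ → Bool => ∃ g : Γ, shift g x = y where
  refl x := ⟨1, by funext δ; simp [shift]⟩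
  symm := by
    rintro x y ⟨g, rfl⟩
    exact ⟨g⁻¹, by funext δ; simp [shift]⟩
  trans := by
    rintro x y z ⟨g, rfl⟩ ⟨h, rfl⟩
    exact ⟨h * g, by funext δ; simp [shift, mul_assoc]⟩

theorem orbit_measurable (Γ : Type) [Group Γ] [Countable Γ] :
    MeasurableSet {p : (Γ → Bool) × (Γ → Bool) | ∃ g : Γ, shift g p.1 = p.2} := by
  have e : {p : (Γ → Bool) × (Γ → Bool) | ∃ g : Γ, shift g p.1 = p.2} =
      ⋃ g : Γ, {p : (Γ → Bool) × (Γ → Bool) | shift g p.1 = p.2} := by
    ext p
    simp
  rw [e]
  refine MeasurableSet.iUnion fun g => measurableSet_eq_fun ?_ measurable_snd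
  exact (measurable_pi_lambda _ fun δ => measurable_pi_apply _).comp measurable_fst

theorem orbit_countable (Γ : Type) [Group Γ] [Countable Γ] (x : Γ → Bool) :
    Set.Countable {y : Γ → Bool | ∃ g : Γ, shift g x = y} :=
  Set.countable_range fun g : Γ => shift g x

end Pool.Agent.Lib.MP_75b31c_lc.H55
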